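import Mathlib
import Pool.Agent.R27.SM.Suff

set_option autoImplicit false
set_option linter.unusedSectionVars false

/-!
# The transversal matroids that are strict matching matroids

A transversal matroid `M` is a strict matching matroid if and only if its rank is even and
`t + t₀ ≤ c + ν`, where `t` is the number of its series classes, `t₀` the number of its series
classes with an even number of elements, `c` the number of its coloops and `ν` its nullity.
-/

namespace Pool.Agent.Results.MP_f8b95a_co.Characterization

open Set Pool.Agent.R27.SM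

open scoped Matroid

/-- The set `A` of vertices is covered by some matching of `G`. -/
def Covered {V : Type} (G : SimpleGraph V) (A : Set V) : Prop :=
  ∃ W : G.Subgraph, W.IsMatching ∧ A ⊆ W.verts

/-- `M` is a strict matching matroid: it is isomorphic to the matching matroid of some finite
graph `G` (on the whole vertex set of `G`). -/
def IsStrictMatching {S : Type} (M : Matroid S) : Prop :=
  ∃ (V : Type) (_ : Finite V) (G : SimpleGraph V) (f : S ≃ V),
    ∀ X : Set S, M.Indep X ↔ Covered G (f '' X)

/-- `M` is a transversal matroid: its independent sets are the partial transversals of a finite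
family `𝒜` of sets. -/
def IsTransversal {S : Type} (M : Matroid S) : Prop :=
  ∃ (m : ℕ) (𝒜 : Fin m → Set S), ∀ X : Set S,
    M.Indep X ↔ ∃ g : X → Fin m, Function.Injective g ∧ ∀ x : X, (x : S) ∈ 𝒜 (g x)

/-- The series classes of `M`: the equivalence classes, among the elements that are not coloops,
of the relation `x = y` or `{x, y}` is a cocircuit. -/
def seriesClasses {S : Type} (M : Matroid S) : Set (Set S) :=
  {C | ∃ x, x ∉ M.coloops ∧ C = {y | y = x ∨ M.IsCocircuit {x, y}}}

section Aux

variable {S : Type} [Finite S] {M : Matroid S}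

lemma coloops_eq : M.coloops = (nonco M)ᶜ := by
  ext e
  rw [← Matroid.isColoop_iff_mem_coloops, Matroid.isColoop_iff_forall_mem_isBase, mem_compl_iff]
  constructor
  · rintro h ⟨B, hB, he⟩
    exact he (h hB)
  · intro h B hB
    by_contra he
    exact h ⟨B, hB, he⟩

lemma ser_iff {x y : S} (hx : x ∈ nonco M) :
    y ∈ ser M x ↔ y = x ∨ M.IsCocircuit {x, y} := by
  by_cases hyx : y = x
  · subst hyx
    exact ⟨fun _ => Or.inl rfl, fun _ => mem_ser_self hx⟩
  have hxy : x ≠ y := fun h => hyx h.symm
  constructor
  · rintro ⟨hy, h | h⟩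
    · exact absurd h hxy
    · refine Or.inr ?_
      rw [Matroid.isCocircuit_iff_minimal, minimal_iff]
      constructor
      · intro B hB
        rcases h B hB with h' | h'
        · exact ⟨x, Or.inl rfl, h'⟩
        · exact ⟨y, Or.inr rfl, h'⟩
      · intro C hC hCs
        apply Subset.antisymm _ hCs
        obtain ⟨B, hB, hxB⟩ := hx
        obtain ⟨B', hB', hyB'⟩ := hy
        obtain ⟨z, hz, hzB⟩ := hC B hB
        obtain ⟨w, hw, hwB⟩ := hC B' hB'
        rintro u (rfl | hu)
        · rcases hCs hw with rfl | h1
          · exact hw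
          · rw [mem_singleton_iff] at h1
            exact absurd (h1 ▸ hwB) hyB'
        · rw [mem_singleton_iff] at hu
          subst hu
          rcases hCs hz with h1 | h1
          · exact absurd (h1 ▸ hzB) hxB
          · rw [mem_singleton_iff] at h1
            exact h1 ▸ hz
  · rintro (h | h)
    · exact absurd h hyx
    · rw [Matroid.isCocircuit_iff_minimal, minimal_iff] at h
      refine ⟨?_, Or.inr fun B hB => ?_⟩
      · by_contra hy
        have h1 : ∀ B, M.IsBase B → (({y} : Set S) ∩ B).Nonempty :=
          fun B hB => ⟨y, rfl, coloop_mem hB hy⟩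
        have h2 : ({x, y} : Set S) = {y} := h.2 h1 (by
          intro z hz
          exact Or.inr hz)
        have h3 : x ∈ ({y} : Set S) := h2 ▸ Or.inl rfl
        exact hxy h3
      · obtain ⟨z, hz, hzB⟩ := h.1 B hB
        rcases hz with rfl | hz
        · exact Or.inl hzB
        · rw [mem_singleton_iff] at hz
          exact Or.inr (hz ▸ hzB)

lemma seriesClasses_eq : seriesClasses M = classes M := by
  ext C
  constructor
  · rintro ⟨x, hx, rfl⟩
    rw [coloops_eq, mem_compl_iff, not_not] at hx
    refine ⟨x, hx, ?_⟩
    ext y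
    exact ser_iff hx
  · rintro ⟨x, hx, rfl⟩
    refine ⟨x, ?_, ?_⟩
    · rw [coloops_eq, mem_compl_iff, not_not]
      exact hx
    · ext y
      exact ser_iff hx

lemma rank_eq {B : Set S} (hB : M.IsBase B) : M.eRank.toNat = B.ncard := by
  rw [← hB.encard_eq_eRank]
  rfl

lemma nullity_eq (hE : M.E = univ) {B : Set S} (hB : M.IsBase B) :
    M✶.eRank.toNat = Bᶜ.ncard := by
  rw [rank_eq hB.compl_isBase_dual, hE, ← compl_eq_univ_sdiff]

lemma pres_of_transversal (hM : IsTransversal M) :
    ∃ (ι : Type) (_ : Finite ι) (𝒜 : ι → Set S), Pres M 𝒜 := by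
  classical
  obtain ⟨m, 𝒜, h⟩ := hM
  refine ⟨Option (Fin m), inferInstance, fun o => o.elim ∅ 𝒜, fun X => ?_⟩
  rw [h]
  constructor
  · rintro ⟨g, hg, hg'⟩
    refine ⟨fun v => if hv : v ∈ X then some (g ⟨v, hv⟩) else none, ?_, ?_⟩
    · intro x hx y hy hxy
      simp only [dif_pos hx, dif_pos hy, Option.some.injEq] at hxy
      exact congrArg Subtype.val (hg hxy)
    · intro x hx
      simp only [dif_pos hx]
      exact hg' ⟨x, hx⟩
  · rintro ⟨g, hg, hg'⟩
    have h1 : ∀ x : X, ∃ i, g x = some i ∧ (x : S) ∈ 𝒜 i := by
      intro x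
      have h2 := hg' x x.2
      rcases h3 : g x with _ | i
      · rw [h3] at h2
        exact absurd h2 (notMem_empty _)
      · rw [h3] at h2
        exact ⟨i, rfl, h2⟩
    choose g' h1 h2 using h1
    refine ⟨g', ?_, h2⟩
    intro x y hxy
    apply Subtype.ext
    apply hg x.2 y.2
    rw [h1, h1, hxy]

lemma strict_iff : IsStrictMatching M ↔
    ∃ G : SimpleGraph S, ∀ X, M.Indep X ↔ ∃ μ, Mt G μ ∧ X ⊆ cov μ := by
  constructor
  · rintro ⟨V, _, G, f, h⟩
    refine ⟨G.comap f, fun X => ?_⟩
    rw [h, Covered, covered_iff]
    constructor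
    · rintro ⟨μ, hμ, hX⟩
      refine ⟨fun x => f.symm (μ (f x)), ⟨?_, ?_⟩, ?_⟩
      · intro x
        simp only [Equiv.apply_symm_apply, hμ.1, Equiv.symm_apply_apply]
      · intro x hx
        rw [SimpleGraph.comap_adj, Equiv.apply_symm_apply]
        apply hμ.2
        intro h'
        apply hx
        simp only [h', Equiv.symm_apply_apply]
      · intro x hx h'
        exact hX ⟨x, hx, rfl⟩ ((Equiv.symm_apply_eq f).1 h')
    · rintro ⟨μ, hμ, hX⟩
      refine ⟨fun v => f (μ (f.symm v)), ⟨?_, ?_⟩, ?_⟩
      · intro v
        simp only [Equiv.symm_apply_apply, hμ.1, Equiv.apply_symm_apply]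
      · intro v hv
        have h1 := hμ.2 (f.symm v) (by
          intro h'
          apply hv
          simp only [h', Equiv.apply_symm_apply])
        rw [SimpleGraph.comap_adj, Equiv.apply_symm_apply] at h1
        exact h1
      · rintro _ ⟨x, hx, rfl⟩ h'
        simp only [Equiv.symm_apply_apply, EmbeddingLike.apply_eq_iff_eq] at h'
        exact hX hx h'
  · rintro ⟨G, h⟩
    refine ⟨S, inferInstance, G, Equiv.refl S, fun X => ?_⟩
    rw [h, Covered, covered_iff, Equiv.coe_refl, image_id]

end Aux

/-- **The transversal matroids that are strict matching matroids.** A transversal matroid `M` on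
a finite set `S` is a strict matching matroid if and only if its rank is even and the number of
its series classes plus the number of its series classes of even size is at most the number of
its coloops plus its nullity (the rank of its dual). -/
theorem result {S : Type} [Finite S] (M : Matroid S) (hE : M.E = univ)
    (hM : IsTransversal M) :
    IsStrictMatching M ↔
      Even M.eRank.toNat ∧
      (seriesClasses M).ncard + {C | C ∈ seriesClasses M ∧ Even C.ncard}.ncard ≤
        M.coloops.ncard + M✶.eRank.toNat := by
  obtain ⟨B, hB⟩ := M.exists_isBase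
  rw [strict_iff, rank_eq hB, nullity_eq hE hB, coloops_eq, seriesClasses_eq]
  constructor
  · rintro ⟨G, hG⟩
    exact ⟨even_rank hG hB,
      necessity hG (fun B' hB' => hB'.ncard_eq_ncard_of_isBase hB) hB⟩
  · rintro ⟨h1, h2⟩
    obtain ⟨ι, _, 𝒜, hP⟩ := pres_of_transversal hM
    exact sufficiency hP hB h1 h2

end Pool.Agent.Results.MP_f8b95a_co.Characterization
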